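import Pool.Agent.Helper64.CT.Stmts

set_option autoImplicit false

namespace Pool.Agent.Helper64.CT

open Pool.Agent.Helper64.HG (Ovl Model Circ IC HellyCircle)

theorem cfa_in {V : Type} (l r : V → ℝ) (u v w : V)
    (hvw : Ovl l r v w) (hw : ¬ Ovl l r u w) (h1 : l u ≠ l w) (h2 : r u ≠ r w)
    (h : Ins l r u v) : Ins l r u w := by
  unfold Ovl at hvw hw
  unfold Ins at h ⊢
  push Not at hw
  obtain ⟨ha, hb⟩ := h
  rcases hvw with ⟨c1, c2, c3⟩ | ⟨c1, c2, c3⟩
  · refine ⟨ha.trans c1, ?_⟩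
    have := hw.1 (ha.trans c1) (c2.trans hb)
    exact lt_of_le_of_ne this (Ne.symm h2)
  · refine ⟨?_, c3.trans hb⟩
    by_contra hc
    have hc' : l w < l u := lt_of_le_of_ne (not_lt.1 hc) (Ne.symm h1)
    have := hw.2 hc' (ha.trans c2)
    linarith

/-- if two nonoverlapping intervals share a point, they are nested -/
theorem cfa_nest {V : Type} (l r : V → ℝ) (u w : V) (t : ℝ)
    (hw : ¬ Ovl l r u w) (h1 : l u ≠ l w) (h2 : r u ≠ r w)
    (a1 : l u < t) (a2 : t < r u) (b1 : l w < t) (b2 : t < r w) :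
    Ins l r u w ∨ Ins l r w u := by
  unfold Ovl at hw
  unfold Ins
  push Not at hw
  rcases lt_or_gt_of_ne h1 with h | h
  · left
    refine ⟨h, ?_⟩
    exact lt_of_le_of_ne (hw.1 h (b1.trans a2)) (Ne.symm h2)
  · right
    refine ⟨h, ?_⟩
    exact lt_of_le_of_ne (hw.2 h (a1.trans b2)) h2

theorem st_CFA : ST_CFA := by
  intro V G x S l r q _hlt hne _hlr hadj hq
  -- the one sided statements, for both orders of the two components
  have sep : ∀ y z, ¬ Comp G x y z → ∀ u v, Comp G x y u → Comp G x z v →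
      u ≠ v ∧ ¬ G.Adj u v := by
    intro y z h u v hu hv
    constructor
    · rintro rfl
      exact h (hu.trans hv.symm)
    · intro ha
      exact h ((hu.step hv.right ha).trans hv.symm)
  have all : ∀ y z, (∀ u, Comp G x y u → u ∈ S) → (∀ u, Comp G x z u → u ∈ S) →
      ¬ Comp G x y z → ∀ u v, Comp G x y u → Comp G x z v → Ins l r u v →
      ∀ w, Comp G x z w → Ins l r u w := by
    intro y z hy hz h u v hu hv hin w hw
    refine Comp.ind (hv.symm.trans hw) (fun w => Ins l r u w) hin ?_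
    intro a b ha hPa hb hab
    have ha' := hv.trans ha
    have hb' := ha'.step hb hab
    have s2 := sep y z h u b hu hb'
    have n2 := hne u (hy u hu) b (hz b hb') s2.1
    refine cfa_in l r u a b ((hadj a (hz a ha') b (hz b hb')).1 hab) ?_ n2.1 n2.2 hPa
    exact fun ho => s2.2 ((hadj u (hy u hu) b (hz b hb')).2 ho)
  have adj : ∀ y z, (∀ u, Comp G x y u → u ∈ S) → (∀ u, Comp G x z u → u ∈ S) →
      ¬ Comp G x y z → ∀ u v, Comp G x y u → Comp G x z v → Ins l r u v →
      ∀ n ∈ Att G x z, G.Adj u n := by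
    intro y z hy hz h u v hu hv hin n hn
    obtain ⟨hxn, w, hw, hnw⟩ := hn
    have hi := all y z hy hz h u v hu hv hin w hw
    have h1 := (hq n hxn w (hz w hw)).1 hnw
    exact ((hq n hxn u (hy u hu)).2 ⟨hi.1.trans h1.1, h1.2.trans hi.2⟩).symm
  -- from one mixed vertex
  have mix : ∀ y z, (∀ u, Comp G x y u → u ∈ S) → (∀ u, Comp G x z u → u ∈ S) →
      ¬ Comp G x y z → ∀ w, Comp G x z w → Mixed G w (Att G x y) →
      ∃ u, Comp G x y u ∧ ∀ v, Comp G x z v → Ins l r u v := by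
    intro y z hy hz h w hw hm
    obtain ⟨⟨n, hn, hwn⟩, n1, hn1, hwn1⟩ := hm
    obtain ⟨hxn, u, hu, hnu⟩ := hn
    have h' : ¬ Comp G x z y := fun hc => h hc.symm
    have a := (hq n hxn u (hy u hu)).1 hnu
    have b := (hq n hxn w (hz w hw)).1 hwn.symm
    have s := sep y z h u w hu hw
    have n2 := hne u (hy u hu) w (hz w hw) s.1
    rcases cfa_nest l r u w (q n) (fun ho => s.2 ((hadj u (hy u hu) w (hz w hw)).2 ho))
      n2.1 n2.2 a.1 a.2 b.1 b.2 with hi | hi
    · exact ⟨u, hu, all y z hy hz h u w hu hw hi⟩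
    · exact absurd (adj z y hz hy h' w u hw hu hi n1 hn1) hwn1
  intro y z hy hz hc
  obtain ⟨h, ⟨u', hu', hm'⟩, w', hw', hm⟩ := hc
  obtain ⟨u, hu, hu2⟩ := mix y z hy hz h w' hw' hm
  obtain ⟨v, hv, hv2⟩ := mix z y hz hy (fun hc => h hc.symm) u' hu' hm'
  have h1 := (hu2 v hv).1
  have h2 := (hv2 u hu).1
  exact lt_asymm h1 h2

end Pool.Agent.Helper64.CT
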